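import Pool.Agent.helper43.NO.Defs

/-!
The exponent of the normal order: existence, uniqueness and numerics of the root `α > 1` of
`t (1 + log 2 - log t) = 1`.
-/

open Finset

namespace Pool.Agent.helper96.NO

/-- beyond `2` the function `t (1 + log 2 - log t)` is strictly decreasing -/
theorem g_anti {s t : ℝ} (hs : 2 < s) (hst : s < t) :
    t * (1 + Real.log 2 - Real.log t) < s * (1 + Real.log 2 - Real.log s) := by
  have hs0 : (0 : ℝ) < s := by linarith
  have ht0 : (0 : ℝ) < t := by linarith
  have h1 : Real.log (s / t) ≤ s / t - 1 := Real.log_le_sub_one_of_pos (by positivity)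
  rw [Real.log_div hs0.ne' ht0.ne'] at h1
  have h2 : t * (Real.log s - Real.log t) ≤ t * (s / t - 1) :=
    mul_le_mul_of_nonneg_left h1 ht0.le
  have h3 : t * (s / t - 1) = s - t := by field_simp
  have h4 : Real.log 2 < Real.log s := Real.log_lt_log (by norm_num) hs
  have h5 : 0 < (t - s) * (Real.log s - Real.log 2) :=
    mul_pos (by linarith) (by linarith)
  nlinarith [h2, h3, h5]

theorem exists_alpha : ∃ α : ℝ, 1 < α ∧ α * (1 + Real.log 2 - Real.log α) = 1 ∧
    (∀ t : ℝ, 1 < t → t * (1 + Real.log 2 - Real.log t) = 1 → t = α) ∧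
    2.98 < α * Real.log 2 ∧ α * Real.log 2 < 2.99 := by
  have hl1 := Real.log_two_gt_d9
  have hl2 := Real.log_two_lt_d9
  have h4 : Real.log 4 = 2 * Real.log 2 := by
    rw [show (4 : ℝ) = 2 ^ 2 by norm_num, Real.log_pow]; norm_num
  -- upper bound for `log 4.3`
  have ha : Real.log (4.3 : ℝ) < 2 * Real.log 2 + 0.073 := by
    have h : (4.3 : ℝ) = 4 * 1.075 := by norm_num
    rw [h, Real.log_mul (by norm_num) (by norm_num), h4]
    have h' : Real.log (1.075 : ℝ) < 0.073 := by
      rw [Real.log_lt_iff_lt_exp (by norm_num)]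
      have := Real.quadratic_le_exp_of_nonneg (x := (0.073 : ℝ)) (by norm_num)
      norm_num at this ⊢
      linarith
    linarith
  -- lower bound for `log 4.313`
  have hb : 2 * Real.log 2 + 0.0753 < Real.log (4.313 : ℝ) := by
    have h : (4.313 : ℝ) = 4 * (1 + 0.07825) := by norm_num
    rw [h, Real.log_mul (by norm_num) (by norm_num), h4]
    have h' := Real.le_log_one_add_of_nonneg (x := (0.07825 : ℝ)) (by norm_num)
    have h'' : (0.0753 : ℝ) < 2 * 0.07825 / (0.07825 + 2) := by norm_num
    linarith
  have hcont : ContinuousOn (fun t : ℝ => t * (1 + Real.log 2 - Real.log t))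
      (Set.Icc 4.3 4.313) := by
    apply ContinuousOn.mul continuousOn_id
    apply ContinuousOn.sub continuousOn_const
    apply Real.continuousOn_log.mono
    intro t ht
    have : (4.3 : ℝ) ≤ t := ht.1
    simp only [Set.mem_compl_iff, Set.mem_singleton_iff]
    intro h0
    rw [h0] at this
    norm_num at this
  have hmem : (1 : ℝ) ∈ Set.Icc ((fun t : ℝ => t * (1 + Real.log 2 - Real.log t)) 4.313)
      ((fun t : ℝ => t * (1 + Real.log 2 - Real.log t)) 4.3) := by
    constructor
    · show (4.313 : ℝ) * (1 + Real.log 2 - Real.log 4.313) ≤ 1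
      nlinarith
    · show (1 : ℝ) ≤ (4.3 : ℝ) * (1 + Real.log 2 - Real.log 4.3)
      nlinarith
  obtain ⟨α, ⟨hα1, hα2⟩, hα⟩ := intermediate_value_Icc' (by norm_num) hcont hmem
  have hα' : α * (1 + Real.log 2 - Real.log α) = 1 := hα
  have hα3 : (2 : ℝ) < α := by
    have : (2 : ℝ) < 4.3 := by norm_num
    linarith
  refine ⟨α, by linarith, hα', ?_, ?_, ?_⟩
  · intro t ht hgt
    have ht2 : 2 < t := by
      by_contra hle0
      have hle : t ≤ 2 := not_lt.mp hle0
      have h5 : Real.log t ≤ Real.log 2 := Real.log_le_log (by linarith) hle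
      nlinarith
    rcases lt_trichotomy t α with h | h | h
    · have := g_anti ht2 h
      rw [hα', hgt] at this
      exact absurd this (lt_irrefl _)
    · exact h
    · have := g_anti hα3 h
      rw [hα', hgt] at this
      exact absurd this (lt_irrefl _)
  · nlinarith
  · nlinarith

end Pool.Agent.helper96.NO
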